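import Mathlib
import Pool.Agent.Lib_MP_394d50_hk.BDefs
import Pool.Agent.Lib_MP_394d50_hr.CDefs
import Pool.Agent.Lib_MP_394d50_hr.KDefs
import Pool.Agent.Lib_MP_394d50_oc.CMain

/-!
# MP_394d50_gt: hierarchies whose end pieces have groups in the class `OrdCls` (definitions)

As in `Lib_MP_394d50_hr/KDefs.lean` a piece is a complex `Y` with the action of a group `A` and with a set `F` of subcomplexes, its
faces. The hierarchies may end, in every dimension, with pieces `(A, Y, F)` whose group is virtually in the smallest class
`OrdCls` which contains the bi-orderable and the locally indicable amenable groups and is closed under extensions and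
directed unions. (For the trivial group these are the Haken cells.)
-/

namespace SingerHK

open SingerVS SingerBO
open scoped Pointwise

section

variable {Γ P : Type} [Group Γ] [DecidableEq P] [MulAction Γ P]

open scoped Classical in
/-- An end piece of dimension `n` with a group in `OrdCls`: the faces are full subcomplexes, all intersections of finitely many
pairwise intersecting faces (also of no face, that is `Y`) are acyclic over `F₂` (so they are not empty), and they are homology
manifolds over `F₂` whose boundary is the union of the smaller intersections, of the dimension `n` minus the number of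
the faces: the link of a simplex `c` in the intersection of the faces in `J` is a homology sphere if `J` is the set of all
faces which contain `c`, and it is acyclic if `J` is smaller. A subgroup `B` of finite index in `A` belongs to
`OrdCls`, and no element of `B` moves a face to a different face which meets it. (For example `Y` is the universal
covering of a compact aspherical `n`-manifold with corners, whose faces and their intersections are aspherical and
`π₁`-injective, and `A` is its fundamental group.) -/
structure OCell (n : ℕ) (A : Subgroup Γ) (Y : Set (Finset P)) (F : Set (Set (Finset P))) :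
    Prop where
  ne : ∀ c ∈ Y, c.Nonempty
  down : ∀ c ∈ Y, ∀ d, d ⊆ c → d.Nonempty → d ∈ Y
  sub : ∀ f ∈ F, f ⊆ Y
  fne : ∀ f ∈ F, f.Nonempty
  fdown : ∀ f ∈ F, ∀ c ∈ f, ∀ d, d ⊆ c → d.Nonempty → d ∈ f
  full : ∀ f ∈ F, ∀ c ∈ Y, (∀ p ∈ c, {p} ∈ f) → c ∈ f
  acyc : ∀ J ⊆ F, J.Finite → (∀ f ∈ J, ∀ g ∈ J, (f ∩ g).Nonempty) → Acyc (strat Y J)
  dim : ∀ c ∈ Y, c.card + {f | f ∈ F ∧ c ∈ f}.ncard ≤ n + 1
  sph : ∀ c ∈ Y, SphF2 (n + 1 - (c.card + {f | f ∈ F ∧ c ∈ f}.ncard))
    (lk (strat Y {f | f ∈ F ∧ c ∈ f}) c)
  ball : ∀ c ∈ Y, ∀ J ⊂ {f | f ∈ F ∧ c ∈ f}, RedAc (lk (strat Y J) c)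
  grp : ∃ B ≤ A, (B.subgroupOf A).FiniteIndex ∧ OrdCls B ∧
    ∀ b ∈ B, ∀ f ∈ F, b • f = f ∨ ¬ (b • f ∩ f).Nonempty

end

section

variable {Γ P : Type} [Group Γ] [LinearOrder P] [MulAction Γ P]

/-- The complexes `Y` with the faces `F` and the group `A` which have a hierarchy of dimension `n` with end pieces as in
`OCell`, and end pieces whose faces satisfy `Q`: the smallest class which contains the pieces of `OCell` (`ocell`),
which contains `(A, Y, F)` if it contains all pieces of a decomposition of `Y` (`cut`), and which contains the end
pieces (`low`) with an arbitrary group: `n` is even (or there are no faces), the faces are in corner position, `Y` collapses to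
a complex of dimension at most `n / 2`, or at least the `ℓ²`-Betti numbers of `Y / A` vanish above the middle
dimension, and for all faces `f` the complex `f`, with its stabiliser and its faces, satisfies `Q`. -/
inductive HierO (n : ℕ) (Q : Subgroup Γ → Set (Finset P) → Set (Set (Finset P)) → Prop) :
    Subgroup Γ → Set (Finset P) → Set (Set (Finset P)) → Prop
  | ocell (A : Subgroup Γ) (Y : Set (Finset P)) (F : Set (Set (Finset P)))
      (h : OCell n A Y F) : HierO n Q A Y F
  | low (A : Subgroup Γ) (Y : Set (Finset P)) (F : Set (Set (Finset P)))
      (hn : Even n ∨ F = ∅) (hc : Corner A F)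
      (hb : CollTo (n / 2) Y ∨ ∀ k, n < 2 * k → bettiX A Y k = 0)
      (hq : ∀ f ∈ F, Q (A ⊓ MulAction.stabilizer Γ f) f (facesIn F f)) : HierO n Q A Y F
  | cut (A : Subgroup Γ) (Y : Set (Finset P)) (F V : Set (Set (Finset P))) (h : IsCut A Y F V)
      (hv : ∀ v ∈ V, HierO n Q (A ⊓ MulAction.stabilizer Γ v) v (facesOf F V v)) :
      HierO n Q A Y F

/-- `StratO n A Y F`: the complex `Y` with the faces `F` and the group `A` has a hierarchy of dimension `n - 1`, the faces
are in corner position, and the same holds, in dimension `n - 2`, for all faces, and so on. (For `n = 0` there is no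
such complex.) -/
def StratO : ℕ → Subgroup Γ → Set (Finset P) → Set (Set (Finset P)) → Prop
  | 0, _, _, _ => False
  | n + 1, A, Y, F => HierO n (StratO n) A Y F ∧ Corner A F ∧
      ∀ f ∈ F, StratO n (A ⊓ MulAction.stabilizer Γ f) f (facesIn F f)

end

end SingerHK
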