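import Mathlib
import Pool.Agent.Lib_MP_394d50_bo.FDefs

/-!
# MP_394d50_gt: groups which embed in a sequence of bi-ordered groups
-/

namespace SingerBO

/-- A group with a sequence of homomorphisms to bi-ordered groups which separate its elements is bi-orderable. -/
theorem bord_of_res {K : Type} [Group K] (N : ℕ → Type) [∀ c, Group (N c)]
    [∀ c, LinearOrder (N c)] [∀ c, MulLeftStrictMono (N c)] [∀ c, MulRightStrictMono (N c)]
    (θ : ∀ c, K →* N c) (h : ∀ x : K, (∀ c, θ c x = 1) → x = 1) :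
    ∃ r : K → K → Prop, BOrd r := by
  classical
  refine ⟨fun x y => ∃ c, (∀ c' < c, θ c' x = θ c' y) ∧ θ c x < θ c y, ?_, ?_, ?_, ?_, ?_⟩
  · rintro x ⟨c, _, h1⟩
    exact lt_irrefl _ h1
  · rintro x y z ⟨c, h1, h2⟩ ⟨d, h3, h4⟩
    rcases lt_trichotomy c d with e | e | e
    · refine ⟨c, fun c' hc' => (h1 c' hc').trans (h3 c' (hc'.trans e)), ?_⟩
      rw [← h3 c e]
      exact h2
    · subst e
      exact ⟨c, fun c' hc' => (h1 c' hc').trans (h3 c' hc'), h2.trans h4⟩
    · refine ⟨d, fun c' hc' => (h1 c' (hc'.trans e)).trans (h3 c' hc'), ?_⟩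
      rw [h1 d e]
      exact h4
  · intro x y hxy
    have h1 : ∃ c, θ c x ≠ θ c y := by
      by_contra h2
      push Not at h2
      apply hxy
      have h3 : x * y⁻¹ = 1 := h _ fun c => by
        rw [map_mul, map_inv, h2 c, mul_inv_cancel]
      exact mul_inv_eq_one.mp h3
    have h2 := Nat.find_spec h1
    have h3 : ∀ c' < Nat.find h1, θ c' x = θ c' y := fun c' hc' => by
      have := Nat.find_min h1 hc'
      push Not at this
      exact this
    rcases lt_or_gt_of_ne h2 with h4 | h4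
    · exact Or.inl ⟨_, h3, h4⟩
    · exact Or.inr ⟨_, fun c' hc' => (h3 c' hc').symm, h4⟩
  · rintro g x y ⟨c, h1, h2⟩
    refine ⟨c, fun c' hc' => by rw [map_mul, map_mul, h1 c' hc'], ?_⟩
    rw [map_mul, map_mul]
    exact mul_lt_mul_right h2 _
  · rintro g x y ⟨c, h1, h2⟩
    refine ⟨c, fun c' hc' => by rw [map_mul, map_mul, h1 c' hc'], ?_⟩
    rw [map_mul, map_mul]
    exact mul_lt_mul_left h2 _

end SingerBO
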