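import Mathlib
import Pool.Agent.Lib_MP_394d50_all.GMain
import Pool.Agent.Lib_MP_394d50_all.OCoc
import Pool.Agent.Lib_MP_394d50_hk.GDefs
import Pool.Agent.Lib_MP_394d50_ho.OBrd

/-!
# MP_394d50_gt: the kernel of a colouring of a right-angled Coxeter group is bi-orderable

Let `s : V → S` be a colouring of the vertices such that adjacent vertices have different colours. The kernel of the
homomorphism `W G → (ℤ/2)^S`, `gen v ↦ e_{s v}`, is bi-orderable if `V` is finite. The proof is that of
`Lib_MP_394d50_all/OCoc.lean` and `GInj.lean`, with the signs given by the colours.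
-/

namespace SingerHK

open SingerRA SingerBO

section

variable {V S : Type} [DecidableEq S] {G : SimpleGraph V} {N : Type} [Group N]

/-- The homomorphism to the colours. -/
noncomputable def cdg (G : SimpleGraph V) (s : V → S) : W G →* Multiplicative (QV S) :=
  wlift G (fun v => Multiplicative.ofAdd (ev (s v))) (fun v => by
    have h1 : ev (s v) + ev (s v) = (0 : QV S) := by
      funext u
      exact CharTwo.add_self_eq_zero _
    rw [← ofAdd_add, h1]
    rfl) (fun u v _ => mul_comm _ _)

theorem cdg_gen (s : V → S) (v : V) :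
    (cdg G s (gen G v)).toAdd = ev (s v) := by
  unfold cdg
  rw [wlift_gen]
  rfl

/-- The value of the cocycle at the generator `s_v` and the point `χ`. -/
def thc1 (s : V → S) (t : V → N) (v : V) (χ : QV S) : N := if χ (s v) = 0 then (t v)⁻¹ else t v

theorem thc1_add_self (s : V → S) (t : V → N) (v : V) (χ : QV S) :
    thc1 s t v (χ + ev (s v)) = (thc1 s t v χ)⁻¹ := by
  unfold thc1
  rw [Pi.add_apply, ev_self]
  rcases zm2_cases (χ (s v)) with h | h <;> rw [h]
  · simp
  · rw [show (1 : ZMod 2) + 1 = 0 from rfl]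
    simp

theorem thc1_add_ne (s : V → S) (t : V → N) {u v : V} (h : s v ≠ s u) (χ : QV S) :
    thc1 s t v (χ + ev (s u)) = thc1 s t v χ := by
  unfold thc1
  rw [Pi.add_apply, ev_ne h, add_zero]

/-- The permutation `(χ, d) ↦ (χ + e_{s v}, θ_v(χ) d)`. -/
def cPerm (s : V → S) (t : V → N) (v : V) : Equiv.Perm (QV S × N) where
  toFun p := (p.1 + ev (s v), thc1 s t v p.1 * p.2)
  invFun p := (p.1 + ev (s v), thc1 s t v p.1 * p.2)
  left_inv := by
    rintro ⟨χ, d⟩
    refine Prod.ext (add_ev_ev χ (s v)) ?_
    show thc1 s t v (χ + ev (s v)) * (thc1 s t v χ * d) = d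
    rw [thc1_add_self, inv_mul_cancel_left]
  right_inv := by
    rintro ⟨χ, d⟩
    refine Prod.ext (add_ev_ev χ (s v)) ?_
    show thc1 s t v (χ + ev (s v)) * (thc1 s t v χ * d) = d
    rw [thc1_add_self, inv_mul_cancel_left]

variable (s : V → S) (hs : ∀ u v, G.Adj u v → s u ≠ s v) (t : V → N)
  (comm : ∀ u v, G.Adj u v → t u * t v = t v * t u)

/-- The action of `W` on `QV S × N`. -/
noncomputable def thcHom : W G →* Equiv.Perm (QV S × N) :=
  wlift G (cPerm s t) (fun v => Equiv.ext fun p => (cPerm s t v).left_inv p) fun u v h => by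
    have hne : s u ≠ s v := hs u v h
    have h0 : Commute (t u) (t v) := comm u v h
    refine Equiv.ext fun p => Prod.ext ?_ ?_
    · show p.1 + ev (s v) + ev (s u) = p.1 + ev (s u) + ev (s v)
      exact add_right_comm _ _ _
    · show thc1 s t u (p.1 + ev (s v)) * (thc1 s t v p.1 * p.2) =
        thc1 s t v (p.1 + ev (s u)) * (thc1 s t u p.1 * p.2)
      rw [thc1_add_ne s t hne, thc1_add_ne s t hne.symm, ← mul_assoc, ← mul_assoc]
      congr 1
      unfold thc1
      split_ifs
      · exact h0.inv_inv
      · exact h0.inv_left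
      · exact h0.inv_right
      · exact h0

/-- The cocycle. -/
noncomputable def thc (w : W G) (χ : QV S) : N := (thcHom s hs t comm w (χ, 1)).2

theorem thcHom_gen (v : V) (p : QV S × N) :
    thcHom s hs t comm (gen G v) p = (p.1 + ev (s v), thc1 s t v p.1 * p.2) := by
  unfold thcHom
  rw [wlift_gen]
  rfl

theorem thc_one (χ : QV S) : thc s hs t comm (1 : W G) χ = 1 := by
  unfold thc
  rw [map_one]
  rfl

theorem thcHom_fst (w : W G) (χ : QV S) (x : N) :
    (thcHom s hs t comm w (χ, x)).1 = χ + (cdg G s w).toAdd := by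
  induction w using W_ind with
  | one =>
    rw [map_one, map_one]
    show χ = χ + 0
    rw [add_zero]
  | gm v w ih =>
    rw [map_mul, Equiv.Perm.mul_apply, thcHom_gen, map_mul, toAdd_mul, cdg_gen, ih]
    show χ + (cdg G s w).toAdd + ev (s v) = χ + (ev (s v) + (cdg G s w).toAdd)
    rw [add_assoc, add_comm ((cdg G s w).toAdd)]

theorem thc_gen_mul (v : V) (w : W G) (χ : QV S) :
    thc s hs t comm (gen G v * w) χ =
      thc1 s t v (χ + (cdg G s w).toAdd) * thc s hs t comm w χ := by
  unfold thc
  rw [map_mul, Equiv.Perm.mul_apply, thcHom_gen, thcHom_fst]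

theorem thc_mul (w w' : W G) (χ : QV S) :
    thc s hs t comm (w * w') χ =
      thc s hs t comm w (χ + (cdg G s w').toAdd) * thc s hs t comm w' χ := by
  induction w using W_ind with
  | one => rw [one_mul, thc_one, one_mul]
  | gm v w ih =>
    rw [mul_assoc, thc_gen_mul, ih, thc_gen_mul, map_mul, toAdd_mul, mul_assoc]
    congr 2
    rw [add_assoc, add_comm ((cdg G s w').toAdd)]

end

section

variable {V S : Type} [Fintype V] [DecidableEq V] [DecidableEq S] {G : SimpleGraph V}
  (s : V → S) (hs : ∀ u v, G.Adj u v → s u ≠ s v) (c : ℕ)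

theorem thc1_tA (v : V) (χ : QV S) :
    ∃ a : ℤ, a ≠ 0 ∧ thc1 s (tN G c) v χ = tA G c ℤ a v := by
  unfold thc1
  split_ifs
  · refine ⟨-1, by decide, ?_⟩
    show (tA G c ℤ 1 v)⁻¹ = _
    rw [tA_inv]
  · exact ⟨1, by decide, rfl⟩

theorem thc_entry (A : Finset V) (L : List V) (hL : ∀ v ∈ L, v ∈ A) (χ : QV S)
    (x y : Yc G c) :
    (len G x.1 + L.length < len G y.1 →
      (thc s hs (tN G c) (tN_comm G c) ((cs G).wordProd L) χ).m A x y = 0) ∧
    (len G x.1 + L.length = len G y.1 → y.1 = x.1 * (cs G).wordProd L →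
      (thc s hs (tN G c) (tN_comm G c) ((cs G).wordProd L) χ).m A x y ≠ 0) ∧
    (len G x.1 + L.length = len G y.1 → y.1 ≠ x.1 * (cs G).wordProd L →
      (thc s hs (tN G c) (tN_comm G c) ((cs G).wordProd L) χ).m A x y = 0) := by
  induction L generalizing x with
  | nil =>
    have h0 : thc s hs (tN G c) (tN_comm G c) ((cs G).wordProd []) χ = 1 := by
      rw [(cs G).wordProd_nil]
      exact thc_one s hs (tN G c) (tN_comm G c) χ
    rw [h0, UG.one_m, List.length_nil, add_zero, (cs G).wordProd_nil, mul_one]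
    refine ⟨fun h => ?_, fun _ h => ?_, fun _ h => ?_⟩
    · rw [Matrix.one_apply_ne]
      rintro rfl
      omega
    · have : x = y := Subtype.ext h.symm
      rw [this, Matrix.one_apply_eq]
      exact one_ne_zero
    · rw [Matrix.one_apply_ne]
      rintro rfl
      exact h rfl
  | cons v L ih =>
    have hv : v ∈ A := hL v List.mem_cons_self
    have ih' := fun x => ih (fun u hu => hL u (List.mem_cons_of_mem v hu)) x
    obtain ⟨a, ha, hth⟩ := thc1_tA s c v (χ + (cdg G s ((cs G).wordProd L)).toAdd)
    have h0 : thc s hs (tN G c) (tN_comm G c) ((cs G).wordProd (v :: L)) χ =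
        tA G c ℤ a v * thc s hs (tN G c) (tN_comm G c) ((cs G).wordProd L) χ := by
      rw [(cs G).wordProd_cons, ← hth]
      exact thc_gen_mul s hs (tN G c) (tN_comm G c) v _ χ
    have h1 : (thc s hs (tN G c) (tN_comm G c) ((cs G).wordProd (v :: L)) χ).m A x y =
        (thc s hs (tN G c) (tN_comm G c) ((cs G).wordProd L) χ).m A x y +
          a * (Tm G c ℤ v *
            (thc s hs (tN G c) (tN_comm G c) ((cs G).wordProd L) χ).m A) x y := by
      rw [h0, UG.mul_m, tA_pos G c ℤ a hv, add_mul, one_mul, Matrix.add_apply, smul_mul_assoc,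
        Matrix.smul_apply, smul_eq_mul]
    have h2 : (cs G).wordProd (v :: L) = gen G v * (cs G).wordProd L := (cs G).wordProd_cons v L
    rw [h1, h2, List.length_cons]
    by_cases hz : ∃ z : Yc G c, z.1 = x.1 * gen G v ∧ len G z.1 = len G x.1 + 1
    · obtain ⟨z, hz1, hz2⟩ := hz
      rw [Tm_mul_pos G c ℤ v _ x y z hz1 hz2]
      have h3 : x.1 * (gen G v * (cs G).wordProd L) = z.1 * (cs G).wordProd L := by
        rw [hz1, mul_assoc]
      rw [h3]
      refine ⟨fun h => ?_, fun h h' => ?_, fun h h' => ?_⟩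
      · rw [(ih' x).1 (by omega), (ih' z).1 (by omega), mul_zero, add_zero]
      · rw [(ih' x).1 (by omega), zero_add]
        exact mul_ne_zero ha ((ih' z).2.1 (by omega) h')
      · rw [(ih' x).1 (by omega), (ih' z).2.2 (by omega) h', mul_zero, add_zero]
    · rw [Tm_mul_neg G c ℤ v _ x y hz, mul_zero, add_zero]
      refine ⟨fun h => (ih' x).1 (by omega), fun h h' => ?_, fun h _ => (ih' x).1 (by omega)⟩
      exfalso
      apply hz
      have h4 := len_mul_gen_le G x.1 v
      have h5 := (cs G).length_mul_le (x.1 * gen G v) ((cs G).wordProd L)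
      have h6 := (cs G).length_wordProd_le L
      have h7 : len G y.1 = (cs G).length (x.1 * gen G v * (cs G).wordProd L) := by
        rw [h', mul_assoc]
      have h8 : (cs G).length (x.1 * gen G v) = len G (x.1 * gen G v) := rfl
      have hy := y.2
      refine ⟨⟨x.1 * gen G v, by omega⟩, rfl, ?_⟩
      show len G (x.1 * gen G v) = len G x.1 + 1
      omega

theorem thc_inj (w : W G) (hc : len G w < c) (χ : QV S)
    (h : thc s hs (tN G c) (tN_comm G c) w χ = 1) : w = 1 := by
  obtain ⟨L, hL, hLw⟩ := (cs G).exists_isReduced w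
  have hlen : L.length = len G w := by
    rw [hLw]
    exact hL.symm
  by_contra hne
  let x : Yc G c := ⟨1, by rw [len_one']; omega⟩
  let y : Yc G c := ⟨w, hc⟩
  have h1 := (thc_entry s hs c Finset.univ L (fun v _ => Finset.mem_univ v) χ x y).2.1
    (by
      show len G (1 : W G) + L.length = len G w
      rw [len_one', hlen, zero_add])
    (by
      show w = 1 * (cs G).wordProd L
      rw [one_mul, ← hLw])
  rw [← hLw] at h1
  apply h1
  rw [h, UG.one_m, Matrix.one_apply_ne]
  intro hxy
  exact hne (congrArg Subtype.val hxy).symm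

include hs in
/-- The kernel of the colouring is bi-orderable. -/
theorem bord_cdg : ∃ r : (cdg G s).ker → (cdg G s).ker → Prop, BOrd r := by
  refine bord_of_res (fun c => Nc G c) (fun c =>
    { toFun := fun w => thc s hs (tN G c) (tN_comm G c) w.1 0
      map_one' := thc_one s hs (tN G c) (tN_comm G c) 0
      map_mul' := fun w w' => by
        show thc s hs (tN G c) (tN_comm G c) (w.1 * w'.1) 0 = _
        have h1 : (cdg G s w'.1).toAdd = 0 := congrArg Multiplicative.toAdd w'.2
        rw [thc_mul, h1, add_zero] }) fun w hw => ?_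
  exact Subtype.ext (thc_inj s hs (len G w.1 + 1) w.1 (Nat.lt_succ_self _) 0
    (hw (len G w.1 + 1)))

end

end SingerHK
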