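import Mathlib
import Pool.Agent.Lib_MP_394d50_hk.XGl
import Pool.Agent.Lib_MP_394d50_hk.XHelly
import Pool.Agent.Lib_MP_394d50_ho.HDefs

/-!
# MP_394d50_gt: the reflection complex of an infinite cell (Davis' criterion)

As in `Lib_MP_394d50_hk/XGl.lean`, without the finiteness of the complex.
-/

namespace SingerHK

open SingerRA SingerVS

section

variable {P : Type} [DecidableEq P]

open scoped Classical in
/-- The local conditions of an infinite cell. -/
structure Dv (n : ℕ) (Y : Set (Finset P)) (F : Set (Set (Finset P))) : Prop where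
  ne : ∀ c ∈ Y, c.Nonempty
  down : ∀ c ∈ Y, ∀ d, d ⊆ c → d.Nonempty → d ∈ Y
  fne : ∀ f ∈ F, f.Nonempty
  fdown : ∀ f ∈ F, ∀ c ∈ f, ∀ d, d ⊆ c → d.Nonempty → d ∈ f
  full : ∀ f ∈ F, ∀ c ∈ Y, (∀ p ∈ c, {p} ∈ f) → c ∈ f
  acyc : ∀ J ⊆ F, J.Finite → (∀ f ∈ J, ∀ g ∈ J, (f ∩ g).Nonempty) → Acyc (strat Y J)
  dim : ∀ c ∈ Y, c.card + {f | f ∈ F ∧ c ∈ f}.ncard ≤ n + 1
  sph : ∀ c ∈ Y, SphF2 (n + 1 - (c.card + {f | f ∈ F ∧ c ∈ f}.ncard))
    (lk (strat Y {f | f ∈ F ∧ c ∈ f}) c)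
  ball : ∀ c ∈ Y, ∀ J ⊂ {f | f ∈ F ∧ c ∈ f}, RedAc (lk (strat Y J) c)
  star : ∀ c ∈ Y, {d ∈ Y | c ⊆ d}.Finite
  mfin : ∀ c ∈ Y, {f | f ∈ F ∧ c ∈ f}.Finite

variable {n : ℕ} {Y : Set (Finset P)} {F : Set (Set (Finset P))}

/-- An element of a parabolic subgroup lies in that of a finite subset. -/
theorem exists_fin_par {V : Type} (G : SimpleGraph V) {T : Set V} {w : W G} (hw : w ∈ par G T) :
    ∃ T' ⊆ T, T'.Finite ∧ w ∈ par G T' := by
  refine par_induction G (S := T) (p := fun w => ∃ T' ⊆ T, T'.Finite ∧ w ∈ par G T')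
    ⟨∅, Set.empty_subset T, Set.finite_empty, Subgroup.one_mem _⟩ ?_ hw
  rintro x _ ⟨T', h1, h2, h3⟩ v hv
  refine ⟨insert v T', Set.insert_subset hv h1, h2.insert v, Subgroup.mul_mem _
    (par_mono G (Set.subset_insert v T') h3) (gen_mem_par G (Set.mem_insert v T'))⟩

/-- Finitely many elements lie in the parabolic subgroup of one finite subset. -/
theorem exists_fin_par' {V : Type} (G : SimpleGraph V) {T : Set V} (A : Finset (W G))
    (hA : ∀ w ∈ A, w ∈ par G T) : ∃ T' ⊆ T, T'.Finite ∧ ∀ w ∈ A, w ∈ par G T' := by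
  classical
  induction A using Finset.induction_on with
  | empty => exact ⟨∅, Set.empty_subset T, Set.finite_empty, fun w hw =>
      absurd hw (Finset.notMem_empty w)⟩
  | insert a A _ ih =>
    obtain ⟨T1, h1, h2, h3⟩ := ih fun w hw => hA w (Finset.mem_insert_of_mem hw)
    obtain ⟨T2, h4, h5, h6⟩ := exists_fin_par G (hA a (Finset.mem_insert_self a A))
    refine ⟨T1 ∪ T2, Set.union_subset h1 h4, h2.union h5, fun w hw => ?_⟩
    rcases Finset.mem_insert.mp hw with rfl | hw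
    · exact par_mono G Set.subset_union_right h6
    · exact par_mono G Set.subset_union_left (h3 w hw)

theorem Dv.mc (h : Dv n Y F) {c : Finset P} (hc : c ∈ Y) : Mc F c = {f | f ∈ F ∧ c ∈ f} := by
  ext f
  constructor
  · rintro ⟨h1, h2⟩
    exact ⟨h1, h.full f h1 c hc h2⟩
  · rintro ⟨h1, h2⟩
    exact ⟨h1, fun p hp => h.fdown f h1 c h2 {p} (Finset.singleton_subset_iff.mpr hp)
      (Finset.singleton_nonempty p)⟩

theorem Dv.mc_fin (h : Dv n Y F) {c : Finset P} (hc : c ∈ Y) : (Mc F c).Finite := by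
  rw [h.mc hc]
  exact h.mfin c hc

theorem Dv.strat_down (h : Dv n Y F) {J : Set (Set (Finset P))} (hJ : J ⊆ F) :
    ∀ c ∈ strat Y J, ∀ d, d ⊆ c → d.Nonempty → d ∈ strat Y J :=
  fun c hc d hd hn => ⟨h.down c hc.1 d hd hn, fun f hf => h.fdown f (hJ hf) c (hc.2 f hf) d hd hn⟩

theorem Dv.nb_fin (h : Dv n Y F) {c : Finset P} (hc : c ∈ Y) :
    {p | p ∉ c ∧ insert p c ∈ Y}.Finite := by
  have h4 : ((fun p => insert p c) '' {p | p ∉ c ∧ insert p c ∈ Y}).Finite := by
    refine (h.star c hc).subset ?_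
    rintro _ ⟨p, ⟨_, h2⟩, rfl⟩
    exact ⟨h2, Finset.subset_insert p c⟩
  refine Set.Finite.of_finite_image h4 ?_
  intro p hp q _ e
  have h3 : p ∈ insert q c := by
    rw [← show insert p c = insert q c from e]
    exact Finset.mem_insert_self p c
  exact (Finset.mem_insert.mp h3).resolve_right hp.1

theorem Dv.lk_fin (h : Dv n Y F) {c : Finset P} (hc : c ∈ Y) (J : Set (Set (Finset P))) :
    (lk (strat Y J) c).Finite := by
  refine Set.Finite.of_finite_image (f := fun ρ => ρ ∪ c) ((h.star c hc).subset ?_) ?_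
  · rintro _ ⟨ρ, hρ, rfl⟩
    exact ⟨hρ.2.1, Finset.subset_union_right⟩
  · intro ρ hρ τ hτ h
    have h1 : (ρ ∪ c) \ c = (τ ∪ c) \ c := congrArg (fun x => x \ c) h
    rwa [Finset.union_sdiff_cancel_right hρ.1, Finset.union_sdiff_cancel_right hτ.1] at h1

theorem strat_empty (Y : Set (Finset P)) : strat Y ∅ = Y := by
  ext c
  exact ⟨fun h => h.1, fun h => ⟨h, fun f hf => absurd hf (Set.notMem_empty f)⟩⟩

theorem Dv.lk_fin' (h : Dv n Y F) {c : Finset P} (hc : c ∈ Y) : (lk Y c).Finite := by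
  have h1 := h.lk_fin hc ∅
  rwa [strat_empty] at h1

/-- The acyclicity of the unions of the faces in a finite clique. -/
theorem Dv.ac_strat (h : Dv n Y F) {t : Set (Set (Finset P))} (ht : t ⊆ F) (htf : t.Finite)
    (hc : (allG P).IsClique t) (hne : ∀ f ∈ t, f.Nonempty) :
    Ac {c | c ∈ aug Y ∧ ∀ s ∈ t, ∀ p ∈ c, {p} ∈ s} := by
  have h1 : {c | c ∈ aug Y ∧ ∀ s ∈ t, ∀ p ∈ c, {p} ∈ s} = aug (strat Y t) := by
    ext c
    constructor
    · rintro ⟨h1 | h1, h2⟩
      · exact Or.inl h1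
      · exact Or.inr ⟨h1, fun f hf => h.full f (ht hf) c h1 (h2 f hf)⟩
    · rintro (h1 | h1)
      · refine ⟨Or.inl h1, fun s _ p hp => ?_⟩
        rw [h1] at hp
        exact absurd hp (Finset.notMem_empty p)
      · exact ⟨Or.inr h1.1, fun s hs p hp => h.fdown s (ht hs) c (h1.2 s hs) {p}
          (Finset.singleton_subset_iff.mpr hp) (Finset.singleton_nonempty p)⟩
  rw [h1]
  refine ac_of_acyc (downE_aug (h.strat_down ht)) (fun σ hσ => ?_)
    (h.acyc t ht htf fun f hf g hg => ?_)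
  · exact (h.nb_fin hσ.1).subset fun p hp => ⟨hp.1, hp.2.1⟩
  by_cases e : f = g
  · subst e
    rw [Set.inter_self]
    exact hne f hf
  · exact (hc hf hg e).2

theorem Dv.ac_global (h : Dv n Y F) : Ac (aug (Ucx Y F)) := by
  classical
  intro z hz hz0
  have hx : ∀ σ ∈ z.support, ∃ w ∈ par (allG P) F, σ = ∅ ∨ ∃ c ∈ Y, σ = ucell F c w := by
    intro σ hσ
    rcases mem_Sq.mp hz σ (Finsupp.mem_support_iff.mp hσ) with h1 | ⟨c, hc, w, hw, h1⟩
    · exact ⟨1, Subgroup.one_mem _, Or.inl h1⟩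
    · exact ⟨w, hw, Or.inr ⟨c, hc, h1⟩⟩
  choose! w hw hw' using hx
  obtain ⟨T, hTF, hTf, hTw⟩ := exists_fin_par' (allG P) (z.support.image w) (by
    intro x hx
    rw [Finset.mem_image] at hx
    obtain ⟨σ, hσ, rfl⟩ := hx
    exact hw σ hσ)
  obtain ⟨S, hS, hAS⟩ := exists_cld_fin (allG P) hTf (z.support.image w) hTw
  have hYd : DownE (aug Y) := downE_aug h.down
  have hAc : Ac (Rg F 1 (aug Y) S) := by
    refine ac_rg hTF hTf hYd ?_ _ S rfl hS fun x hx hx1 D hD => ?_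
    · have h1 := h.ac_strat (t := ∅) (Set.empty_subset F) Set.finite_empty (by simp)
        (fun f hf => absurd hf (Set.notMem_empty f))
      have h2 : {c | c ∈ aug Y ∧ ∀ s ∈ (∅ : Set (Set (Finset P))), ∀ p ∈ c, {p} ∈ s} = aug Y := by
        ext c
        simp
      rw [h2] at h1
      exact h1
    · have hDn : D.Nonempty := by
        obtain ⟨s, hs⟩ := Dsc_nonempty _ (hS.par x hx) hx1
        exact ⟨s, (hD s).mpr hs⟩
      refine ac_iUnion D hDn _ (fun s _ => hYd.kf s) fun t ht htn => ?_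
      rw [iInter_kf htn]
      have htF : (t : Set (Set (Finset P))) ⊆ F := fun s hs => hTF ((hD s).mp (ht hs)).1
      refine h.ac_strat htF t.finite_toSet
        ((Dsc_clique (allG P) T x).subset fun s hs => (hD s).mp (ht hs)) ?_
      exact fun f hf => h.fne f (htF hf)
  obtain ⟨y, hy, hy'⟩ := hAc z (by
    rw [mem_Sq]
    intro σ hσ
    have h1 := Finsupp.mem_support_iff.mpr hσ
    have h2 : w σ ∈ S := hAS (Finset.mem_image_of_mem w h1)
    rcases hw' σ h1 with h3 | ⟨c, hc, h3⟩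
    · refine ⟨1, hS.one, ∅, Or.inl rfl, ?_⟩
      rw [h3, ucell_map_eq, Finset.map_empty]
    · exact ⟨w σ, h2, c, Or.inr hc, by rw [one_mul]; exact h3⟩) hz0
  refine ⟨y, Sq_mono ?_ hy, hy'⟩
  rintro σ ⟨x, hx, c, hc, rfl⟩
  rw [one_mul]
  rcases hc with rfl | hc
  · left
    rw [ucell_map_eq, Finset.map_empty]
  · exact Or.inr ⟨c, hc, x, par_mono _ hTF (hS.par x hx), rfl⟩

/-- The link of a simplex of the reflection complex. -/
theorem Dv.lk_eq (h : Dv n Y F) {c : Finset P} (hc : c ∈ Y) {w : WW P}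
    (hw : w ∈ par (allG P) F) {S : Finset (WW P)} (hS : ∀ x, x ∈ S ↔ x ∈ par (allG P) (Mc F c)) :
    ∀ [DecidableEq (P × Set (WW P))], lk (Ucx Y F) (ucell F c w) = Rg F w (lk Y c) S := by
  intro _
  have hun : ∀ (a b : Finset P) (x : WW P), ucell F a x ∪ ucell F b x = ucell F (a ∪ b) x := by
    intro a b x
    ext q
    rw [Finset.mem_union, mem_ucell, mem_ucell, mem_ucell, Finset.mem_union]
    tauto
  have hcn := h.ne c hc
  ext ρ
  constructor
  · rintro ⟨h1, d, hd, v, hv, h2⟩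
    have h3 : ∀ q ∈ ucell F c w, q ∈ ucell F d v := fun q hq => by
      rw [← h2]
      exact Finset.mem_union_right _ hq
    have h4 : ∀ p ∈ c, w⁻¹ * v ∈ par (allG P) (Mc F {p}) := by
      intro p hp
      have h5 := h3 (p, cst F w p) (mem_ucell.mpr ⟨hp, rfl⟩)
      exact cst_eq.mp (mem_ucell.mp h5).2
    have hcd : c ⊆ d := fun p hp => (mem_ucell.mp (h3 (p, cst F w p) (mem_ucell.mpr ⟨hp, rfl⟩))).1
    have h6 : w⁻¹ * v ∈ par (allG P) (Mc F c) := by
      refine par_mono _ ?_ (par_iInter _ c hcn (fun p => Mc F {p}) h4)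
      intro f hf
      obtain ⟨p, hp⟩ := hcn
      exact ⟨(hf p hp).1, fun q hq => (hf q hq).2 q (Finset.mem_singleton_self q)⟩
    refine ⟨w⁻¹ * v, (hS _).mpr h6, d \ c, ⟨Finset.sdiff_disjoint, ?_⟩, ?_⟩
    · rw [Finset.sdiff_union_of_subset hcd]
      exact hd
    · rw [mul_inv_cancel_left]
      ext q
      rw [mem_ucell, Finset.mem_sdiff]
      constructor
      · intro hq
        have h7 : q ∈ ucell F d v := by
          rw [← h2]
          exact Finset.mem_union_left _ hq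
        obtain ⟨h8, h9⟩ := mem_ucell.mp h7
        refine ⟨⟨h8, fun h10 => ?_⟩, h9⟩
        have h11 : q ∈ ucell F c w := by
          refine mem_ucell.mpr ⟨h10, ?_⟩
          rw [h9]
          exact (cst_eq.mpr (h4 _ h10)).symm
        exact Finset.disjoint_left.mp h1 hq h11
      · rintro ⟨⟨h8, h10⟩, h9⟩
        have h7 : q ∈ ucell F d v := mem_ucell.mpr ⟨h8, h9⟩
        rw [← h2, Finset.mem_union] at h7
        rcases h7 with h7 | h7
        · exact h7
        · exact absurd (mem_ucell.mp h7).1 h10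
  · rintro ⟨x, hx, ρ, ⟨h1, h2⟩, rfl⟩
    have hxp := (hS x).mp hx
    have h3 : ucell F c w = ucell F c (w * x) := by
      rw [ucell_inj]
      refine ⟨rfl, fun p hp => ?_⟩
      rw [inv_mul_cancel_left]
      refine par_mono _ ?_ hxp
      rintro f ⟨h4, h5⟩
      refine ⟨h4, fun q hq => ?_⟩
      rw [Finset.mem_singleton] at hq
      subst hq
      exact h5 q hp
    refine ⟨?_, ρ ∪ c, h2, w * x, Subgroup.mul_mem _ hw (par_mono _ (fun f hf => hf.1) hxp), ?_⟩
    · rw [Finset.disjoint_left]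
      intro q hq hq'
      exact Finset.disjoint_left.mp h1 (mem_ucell.mp hq).1 (mem_ucell.mp hq').1
    · rw [h3, hun]

theorem Dv.sp_link (h : Dv n Y F) {c : Finset P} (hc : c ∈ Y) (w : WW P)
    {S : Finset (WW P)} (hS : ∀ x, x ∈ S ↔ x ∈ par (allG P) (Mc F c)) :
    Sp (n + 1 - c.card) (Rg F w (lk Y c) S) := by
  classical
  have hcn := h.ne c hc
  have hdim := h.dim c hc
  have hmc := h.mc hc
  rw [← hmc] at hdim
  have he : n + 1 - c.card = (n + 1 - (c.card + (Mc F c).ncard)) + (Mc F c).ncard := by omega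
  rw [he]
  have hst : ∀ t : Set (Set (Finset P)), t ⊆ Mc F c →
      {ρ | ρ ∈ lk Y c ∧ ∀ s ∈ t, ∀ p ∈ ρ, {p} ∈ s} = lk (strat Y t) c := by
    intro t ht
    ext ρ
    constructor
    · rintro ⟨⟨h1, h2⟩, h3⟩
      refine ⟨h1, h2, fun f hf => h.full f (ht hf).1 _ h2 fun p hp => ?_⟩
      rcases Finset.mem_union.mp hp with hp | hp
      · exact h3 f hf p hp
      · exact (ht hf).2 p hp
    · rintro ⟨h1, h2, h3⟩
      refine ⟨⟨h1, h2⟩, fun s hs p hp => h.fdown s (ht hs).1 _ (h3 s hs) {p} ?_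
        (Finset.singleton_nonempty p)⟩
      rw [Finset.singleton_subset_iff]
      exact Finset.mem_union_left _ hp
  refine sp_rg (fun f hf => hf.1) (h.mc_fin hc) (Mc_clique F hcn)
    (lk_downE h.down hcn) (fun t ht hne => ?_) ?_ hS
  · have hst' := hst _ ht
    simp only [Finset.mem_coe] at hst'
    rw [hst']
    refine ac_of_redAc (lk_downE (h.strat_down fun f hf => (ht hf).1) hcn)
      (h.lk_fin hc _) (h.ball c hc _ ?_)
    rw [← hmc]
    exact ⟨ht, fun h1 => hne (Set.Subset.antisymm ht h1)⟩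
  · rw [hst _ (Set.Subset.refl _)]
    refine sp_of_sphF2 (lk_downE (h.strat_down fun f hf => hf.1) hcn) (h.lk_fin hc _) ?_
    have h1 := h.sph c hc
    rw [← hmc] at h1
    exact h1

open scoped Classical in
/-- Davis' criterion for homology manifolds. -/
theorem Dv.homMfd (h : Dv n Y F) : HomMfd n (Ucx Y F) := by
  constructor
  · rintro σ ⟨c, hc, w, hw, rfl⟩
    rw [ucell_map_eq, Finset.card_map]
    have := h.dim c hc
    omega
  · rintro σ ⟨c, hc, w, hw, rfl⟩
    have hcn := h.ne c hc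
    have hpf := par_finite (allG P) (Mc_clique F hcn) (h.mc_fin hc)
    have hS : ∀ x, x ∈ hpf.toFinset ↔ x ∈ par (allG P) (Mc F c) := fun x => hpf.mem_toFinset
    have h1 : (ucell F c w).card = c.card := by rw [ucell_map_eq, Finset.card_map]
    rw [h1, h.lk_eq hc hw hS]
    exact sphF2_of_sp ((lk_downE h.down hcn).rg _) (rg_finite (h.lk_fin' hc) _)
      (h.sp_link hc w hS)

open scoped Classical in
/-- Davis' criterion: the reflection complex is acyclic. -/
theorem Dv.acyc_Ucx (h : Dv n Y F) : Acyc (Ucx Y F) := by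
  refine acyc_of_ac ?_ (downE_aug ?_) ?_ h.ac_global
  · rintro ⟨c, hc, w, _, h1⟩
    have h2 := h.ne c hc
    rw [ucell_map_eq] at h1
    have h3 : c = ∅ := by
      rw [← Finset.map_eq_empty, ← h1]
    rw [h3] at h2
    exact Finset.not_nonempty_empty h2
  · rintro _ ⟨c, hc, w, hw, rfl⟩ τ hτ hn
    rw [ucell_map_eq] at hτ
    obtain ⟨u, hu, rfl⟩ := Finset.subset_map_iff.mp hτ
    exact ⟨u, h.down c hc u hu (by simpa using hn), w, hw, rfl⟩
  · rintro σ ⟨c, hc, w, hw, rfl⟩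
    have hcn := h.ne c hc
    have hpf := par_finite (allG P) (Mc_clique F hcn) (h.mc_fin hc)
    have hS : ∀ x, x ∈ hpf.toFinset ↔ x ∈ par (allG P) (Mc F c) := fun x => hpf.mem_toFinset
    have h1 : (lk (Ucx Y F) (ucell F c w)).Finite := by
      rw [h.lk_eq hc hw hS]
      exact rg_finite (h.lk_fin' hc) _
    refine Set.Finite.subset (finite_nb h1 ∅) ?_
    rintro q ⟨h2, h3⟩
    refine ⟨Finset.notMem_empty q, ?_, ?_⟩
    · rw [LawfulSingleton.insert_empty_eq, Finset.disjoint_singleton_left]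
      exact h2
    · rw [LawfulSingleton.insert_empty_eq, ← Finset.insert_eq]
      exact h3

end

section

variable {Γ P : Type} [Group Γ] [DecidableEq P] [MulAction Γ P] {n : ℕ} {A : Subgroup Γ}
  {Y : Set (Finset P)} {F : Set (Set (Finset P))}

theorem OCell.dv (h : OCell n A Y F) (hs : ∀ c ∈ Y, {d ∈ Y | c ⊆ d}.Finite)
    (hm : ∀ c ∈ Y, {f | f ∈ F ∧ c ∈ f}.Finite) : Dv n Y F :=
  ⟨h.ne, h.down, h.fne, h.fdown, h.full, h.acyc, h.dim, h.sph, h.ball, hs, hm⟩

theorem OCell.f3 (h : OCell n A Y F) : F3 F := by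
  intro f hf g hg e he hfg hge hfe
  have hne : ∀ k ∈ F, (k ∩ k).Nonempty := fun k hk => by
    rw [Set.inter_self]
    exact h.fne k hk
  have h1 : Acyc (strat Y {f, g, e}) := by
    refine h.acyc _ ?_ (Set.toFinite _) ?_
    · rintro k (rfl | rfl | rfl)
      · exact hf
      · exact hg
      · exact he
    · rintro k (rfl | rfl | rfl) l (rfl | rfl | rfl)
      · exact hne _ hf
      · exact hfg
      · exact hfe
      · rw [Set.inter_comm]; exact hfg
      · exact hne _ hg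
      · exact hge
      · rw [Set.inter_comm]; exact hfe
      · rw [Set.inter_comm]; exact hge
      · exact hne _ he
  obtain ⟨v, hv⟩ := h1.pt
  exact ⟨{v}, ⟨hv.2 f (by simp), hv.2 g (by simp)⟩, hv.2 e (by simp)⟩

end

end SingerHK
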