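import Mathlib
import Pool.Agent.Lib_MP_394d50_ho.OCol
import Pool.Agent.Lib_MP_394d50_ho.ODav
import Pool.Agent.Lib_MP_394d50_hk.KGrp
import Pool.Agent.Lib_MP_394d50_hr.WFin
import Pool.Agent.Lib_MP_394d50_oc.CMain

/-!
# MP_394d50_gt: the group of an end piece with a group in `OrdCls`

The group `HH A F` (reflections in the faces and `A`) has a subgroup of finite index which is `Good`, if a subgroup `B`
of finite index in `A` is in `OrdCls` and does not move a face to a different face which meets it. The subgroup consists of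
the `(w, b)`, `b ∈ B`, such that the number of the letters of `w` in each `B`-orbit of faces is even.
-/

namespace SingerHK

open SingerRA SingerVS SingerCub SingerBO
open scoped Pointwise Classical

variable {Γ P : Type} [Group Γ] [DecidableEq P] [MulAction Γ P]

section

variable {V : Type} {G : SimpleGraph V}

/-- A group which embeds in a bi-orderable group is good. -/
theorem good_of_inj_bord {H Q : Type} [Group H] [Group Q] (j : H →* Q)
    (hj : Function.Injective j) (hQ : ∃ r : Q → Q → Prop, BOrd r) : Good H := by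
  obtain ⟨r, hr⟩ := hQ
  refine good_ext j hr (good_triv fun x => Subtype.ext (hj ?_))
  rw [show j x.1 = 1 from x.2, Subgroup.coe_one, map_one]

/-- The homomorphism to the reflection group of `T`. -/
noncomputable def phT (G : SimpleGraph V) (T : Set V) : W G →* W (G.induce T) :=
  wlift G (fun f => if h : f ∈ T then gen (G.induce T) ⟨f, h⟩ else 1)
    (fun f => by
      by_cases h : f ∈ T
      · rw [dif_pos h]
        exact gen_gen _ _
      · rw [dif_neg h, mul_one])
    (fun f g hfg => by
      by_cases h : f ∈ T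
      · by_cases h' : g ∈ T
        · rw [dif_pos h, dif_pos h']
          exact comm_of_adj _ _ _ hfg
        · rw [dif_neg h', mul_one, one_mul]
      · rw [dif_neg h, mul_one, one_mul])

/-- The homomorphism back. -/
noncomputable def psT (G : SimpleGraph V) (T : Set V) : W (G.induce T) →* W G :=
  wlift (G.induce T) (fun f => gen G f.1) (fun _ => gen_gen _ _)
    (fun _ _ h => comm_of_adj _ _ _ h)

theorem phT_gen {T : Set V} {v : V} (hv : v ∈ T) : phT G T (gen G v) = gen (G.induce T) ⟨v, hv⟩ := by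
  unfold phT
  rw [wlift_gen, dif_pos hv]

theorem psT_gen {T : Set V} (v : T) : psT G T (gen (G.induce T) v) = gen G v.1 := by
  unfold psT
  rw [wlift_gen]

theorem psT_phT {T : Set V} {x : W G} (hx : x ∈ par G T) : psT G T (phT G T x) = x := by
  refine par_induction G (S := T) (p := fun x => psT G T (phT G T x) = x)
    (by rw [map_one, map_one]) ?_ hx
  intro x _ h v hv
  rw [map_mul, map_mul, h, phT_gen hv, psT_gen]

theorem cdg_phT {S : Type} (s : V → S) {T : Set V} {x : W G} (hx : x ∈ par G T) :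
    cdg (G.induce T) (fun v : T => s v.1) (phT G T x) = cdg G s x := by
  refine par_induction G (S := T)
    (p := fun x => cdg (G.induce T) (fun v : T => s v.1) (phT G T x) = cdg G s x)
    (by rw [map_one, map_one, map_one]) ?_ hx
  intro x _ h v hv
  rw [map_mul, map_mul, map_mul, h, phT_gen hv]
  congr 1

theorem cdg_supp {S : Type} (s : V → S) {T : Set V} {x : W G} (hx : x ∈ par G T) (y : S)
    (hy : y ∉ s '' T) : (cdg G s x).toAdd y = 0 := by
  refine par_induction G (S := T) (p := fun x => (cdg G s x).toAdd y = 0)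
    (by rw [map_one]; rfl) ?_ hx
  intro x _ h v hv
  rw [map_mul, toAdd_mul, Pi.add_apply, h, cdg_gen, zero_add]
  exact ev_ne fun e => hy ⟨v, hv, e.symm⟩

end

/-- The orbit under `B` as a colour. -/
theorem cdg_wact {B : Subgroup Γ} {b : Γ} (hb : b ∈ B) (w : WW P) :
    cdg (allG P) (orbF B) (wact b w) = cdg (allG P) (orbF B) w := by
  have h : (cdg (allG P) (orbF B)).comp (wmap b) = cdg (allG P) (orbF B) := by
    refine whom_ext _ fun f => ?_
    show cdg (allG P) (orbF B) (wmap b (gn f)) = cdg (allG P) (orbF B) (gn f)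
    rw [wmap_gn]
    have h1 : orbF B (b • f) = orbF B f := by
      ext g
      constructor
      · rintro ⟨a, ha, rfl⟩
        exact ⟨a * b, B.mul_mem ha hb, (mul_smul a b f).symm⟩
      · rintro ⟨a, ha, rfl⟩
        refine ⟨a * b⁻¹, B.mul_mem ha (B.inv_mem hb), ?_⟩
        rw [mul_smul, inv_smul_smul]
    have h2 := cdg_gen (G := allG P) (orbF B) (b • f)
    rw [h1] at h2
    exact congrArg Multiplicative.ofAdd (h2.trans (cdg_gen (G := allG P) (orbF B) f).symm)
  exact DFunLike.congr_fun h w

variable {p : Pce Γ P}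

/-- There are finitely many orbits of faces under a subgroup of finite index. -/
theorem Pce.Ok.fin_orbB (hp : p.Ok) {B : Subgroup Γ} (hfi : (B.subgroupOf p.A).FiniteIndex) :
    (orbF B '' p.F).Finite := by
  obtain ⟨s, hs, hs'⟩ := hp.fin_orb
  have hfq : Finite (p.A ⧸ B.subgroupOf p.A) := Subgroup.finite_quotient_of_finiteIndex
  have h1 : (Set.range fun x : s × (p.A ⧸ B.subgroupOf p.A) =>
      orbF B (((Quotient.out x.2 : p.A) : Γ)⁻¹ • x.1.1)).Finite := Set.finite_range _
  refine h1.subset ?_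
  rintro _ ⟨g, hg, rfl⟩
  obtain ⟨f, hf, a, ha, rfl⟩ := hs' g hg
  let q : p.A ⧸ B.subgroupOf p.A := ((⟨a, ha⟩ : p.A)⁻¹ : p.A)
  obtain ⟨k, hk⟩ := QuotientGroup.mk_out_eq_mul (B.subgroupOf p.A) ((⟨a, ha⟩ : p.A)⁻¹)
  refine ⟨⟨⟨f, hf⟩, q⟩, ?_⟩
  have h2 : ((Quotient.out q : p.A) : Γ) = a⁻¹ * (k.1 : Γ) := congrArg Subtype.val hk
  have h3 : ((k.1 : p.A) : Γ) ∈ B := k.2
  show orbF B (((Quotient.out q : p.A) : Γ)⁻¹ • f) = orbF B (a • f)
  rw [h2, mul_inv_rev, inv_inv, mul_smul]
  ext g
  constructor
  · rintro ⟨b, hb, rfl⟩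
    exact ⟨b * ((k.1 : p.A) : Γ)⁻¹, B.mul_mem hb (B.inv_mem h3), (mul_smul _ _ _).symm⟩
  · rintro ⟨b, hb, rfl⟩
    refine ⟨b * ((k.1 : p.A) : Γ), B.mul_mem hb h3, ?_⟩
    rw [mul_smul, smul_inv_smul]

/-- The subgroup of the elements with `A`-part in `B`. -/
noncomputable def HB (p : Pce Γ P) (B : Subgroup Γ) : Subgroup (HH p.A p.F) :=
  B.comap ((SemidirectProduct.rightHom : GG Γ P →* Γ).comp (HH p.A p.F).subtype)

theorem Pce.Ok.hb_fin (hp : p.Ok) {B : Subgroup Γ} (hfi : (B.subgroupOf p.A).FiniteIndex) :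
    (HB p B).FiniteIndex := by
  let d : HH p.A p.F →* p.A := ((SemidirectProduct.rightHom : GG Γ P →* Γ).comp
    (HH p.A p.F).subtype).codRestrict p.A fun g => ((mem_HH hp.finv g.1).mp g.2).2
  have h1 : HB p B = (B.subgroupOf p.A).comap d := by
    ext g
    exact Iff.rfl
  rw [h1]
  refine ⟨?_⟩
  rw [Subgroup.index_comap]
  exact fun h => hfi.index_ne_zero (Subgroup.index_eq_zero_of_relIndex_eq_zero h)

/-- The colour homomorphism. -/
noncomputable def cdH (p : Pce Γ P) (B : Subgroup Γ) :
    HB p B →* Multiplicative (QV (Set (Set (Finset P)))) where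
  toFun g := cdg (allG P) (orbF B) g.1.1.left
  map_one' := by
    show cdg (allG P) (orbF B) (1 : GG Γ P).left = 1
    rw [SemidirectProduct.one_left, map_one]
  map_mul' g h := by
    show cdg (allG P) (orbF B) (g.1.1 * h.1.1).left = _
    have hb : g.1.1.right ∈ B := g.2
    rw [SemidirectProduct.mul_left, map_mul]
    congr 1
    exact cdg_wact hb h.1.1.left

theorem Pce.Ok.cdH_fin (hp : p.Ok) {B : Subgroup Γ} (hfi : (B.subgroupOf p.A).FiniteIndex) :
    (cdH p B).ker.FiniteIndex := by
  have h1 := hp.fin_orbB hfi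
  have h2 : Finite (orbF B '' p.F) := h1
  have h3 : Finite (cdH p B).range := by
    refine Finite.of_injective (fun (x : (cdH p B).range) (y : orbF B '' p.F) =>
      (x.1.toAdd y.1 : ZMod 2)) ?_
    rintro ⟨_, g, rfl⟩ ⟨_, g', rfl⟩ e
    refine Subtype.ext ?_
    show cdH p B g = cdH p B g'
    refine congrArg Multiplicative.ofAdd (a₁ := (cdH p B g).toAdd) (a₂ := (cdH p B g').toAdd) ?_
    funext y
    by_cases hy : y ∈ orbF B '' p.F
    · exact congrFun e ⟨y, hy⟩
    · have h4 := ((mem_HH hp.finv g.1.1).mp g.1.2).1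
      have h5 := ((mem_HH hp.finv g'.1.1).mp g'.1.2).1
      exact (cdg_supp (orbF B) h4 y hy).trans (cdg_supp (orbF B) h5 y hy).symm
  exact Subgroup.finiteIndex_ker _

theorem Pce.Ok.exists_good (hp : p.Ok) {B : Subgroup Γ} (hfi : (B.subgroupOf p.A).FiniteIndex)
    (hO : OrdCls B) (hF : ∀ b ∈ B, ∀ f ∈ p.F, b • f = f ∨ ¬ (b • f ∩ f).Nonempty) :
    ∃ K : Subgroup (HH p.A p.F), K.FiniteIndex ∧ Good K := by
  have hHB := hp.hb_fin hfi
  have hcd := hp.cdH_fin hfi
  obtain ⟨K, hK, _, f', hf', _⟩ := exists_map_subtype (HB p B) hHB (cdH p B).ker hcd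
    (MonoidHom.id _) Function.injective_id
  refine ⟨K, hK, good_inj ?_ f' hf'⟩
  -- the projection to `B`
  let j : (cdH p B).ker →* B :=
    (((SemidirectProduct.rightHom : GG Γ P →* Γ).comp (HH p.A p.F).subtype).comp
      ((HB p B).subtype.comp (cdH p B).ker.subtype)).codRestrict B fun g => g.1.2
  refine hO GoodPre goodPre_closed _ j ?_
  have hr : ∀ g : j.ker, g.1.1.1.1.right = 1 := fun g => congrArg Subtype.val g.2
  have hl : ∀ g : j.ker, g.1.1.1.1.left ∈ par (allG P) p.F := fun g =>
    ((mem_HH hp.finv g.1.1.1.1).mp g.1.1.1.2).1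
  have hc : ∀ g : j.ker, cdg (allG P) (orbF B) g.1.1.1.1.left = 1 := fun g => g.1.2
  -- the homomorphism to the reflection group
  let φ : j.ker →* WW P :=
    { toFun := fun g => g.1.1.1.1.left
      map_one' := by
        show (1 : GG Γ P).left = 1
        rw [SemidirectProduct.one_left]
      map_mul' := fun g h => by
        show (g.1.1.1.1 * h.1.1.1.1).left = _
        rw [SemidirectProduct.mul_left, hr g, map_one]
        rfl }
  have hφ : Function.Injective φ := by
    intro g h e
    refine Subtype.ext (Subtype.ext (Subtype.ext (Subtype.ext (SemidirectProduct.ext e ?_))))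
    rw [hr g, hr h]
  refine good_union {U | ∃ T ⊆ p.F, T.Finite ∧ U = (par (allG P) T).comap φ} ?_ ?_ ?_
  · rintro _ ⟨T, h1, h2, rfl⟩ _ ⟨T', h3, h4, rfl⟩
    exact ⟨_, ⟨T ∪ T', Set.union_subset h1 h3, h2.union h4, rfl⟩,
      Subgroup.comap_mono (fun x hx => par_mono _ Set.subset_union_left hx),
      Subgroup.comap_mono (fun x hx => par_mono _ Set.subset_union_right hx)⟩
  · intro g
    obtain ⟨T, h1, h2, h3⟩ := exists_fin_par (allG P) (hl g)
    exact ⟨_, ⟨T, h1, h2, rfl⟩, h3⟩
  · rintro _ ⟨T, hT, hTf, rfl⟩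
    have iT : Fintype T := hTf.fintype
    have hs : ∀ u v : T, ((allG P).induce T).Adj u v → orbF B u.1 ≠ orbF B v.1 := by
      intro u v huv e
      have h1 : v.1 ∈ orbF B u.1 := by
        rw [e]
        exact mem_orbF_self B v.1
      obtain ⟨b, hb, h2⟩ := h1
      have h3 : (allG P).Adj u.1 v.1 := huv
      rcases hF b hb u.1 (hT u.2) with h4 | h4
      · exact h3.1 (h2.trans h4).symm
      · rw [← h2] at h4
        apply h4
        rw [Set.inter_comm]
        exact h3.2
    have hb := bord_cdg (G := (allG P).induce T) (fun v : T => orbF B v.1) hs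
    let j1 : ((par (allG P) T).comap φ) →* (cdg ((allG P).induce T) (fun v : T => orbF B v.1)).ker :=
      (((phT (allG P) T).comp φ).comp ((par (allG P) T).comap φ).subtype).codRestrict _ fun g => by
        exact (cdg_phT (orbF B) g.2).trans (hc g.1)
    refine good_of_inj_bord j1 ?_ hb
    intro g h e
    have h1 : phT (allG P) T (φ g.1) = phT (allG P) T (φ h.1) := congrArg Subtype.val e
    have h2 := congrArg (psT (allG P) T) h1
    rw [psT_phT g.2, psT_phT h.2] at h2
    exact Subtype.ext (hφ h2)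

end SingerHK
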