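import Mathlib
import Pool.Agent.Lib_MP_394d50_ho.OGrp
import Pool.Agent.Lib_MP_394d50_hk.KCh

/-!
# MP_394d50_gt: the bound for the end pieces with a group in `OrdCls`
-/

namespace SingerHK

open SingerRA SingerVS SingerCub SingerRN SingerBO
open scoped Pointwise

theorem exists_locDim_zero_good {K P : Type} [Group K] [inst : DecidableEq P] [MulAction K P]
    {X : Set (Finset P)} (hX : FreeCx K X) {n : ℕ} (hA : Acyc X) (hM : HomMfd n X)
    (hG : Good K) :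
    ∃ r : P → P → Prop, (∀ σ ∈ X, TotOn r σ) ∧
      (∀ h : K, ∀ σ ∈ X, ∀ x ∈ σ, ∀ y ∈ σ, r x y → r (h • x) (h • y)) ∧
      ∀ c : {σ : Finset P // σ ∈ X}, 2 * (c.1.card - 1) ≠ n →
        locDim (simpCx X r) c = 0 := by
  obtain ⟨r, hr⟩ := hG.lo
  obtain ⟨lo, hord⟩ := exists_ordInv_lo hX hr
  have hT : ∀ σ ∈ X, TotOn lo.lt σ := fun σ _ => SingerVS.totOn_lt lo σ
  exact ⟨lo.lt, hT, hord, fun c hc =>
    locDim_dec_pbo hX (LfR.pdR (HomMfd.lfR hX hA hM)) hA hG lo hord c hc⟩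

theorem LO.sq {K : Type} [Group K] {r : K → K → Prop} (hr : LO r) (k : K) (hk : k * k = 1) :
    k = 1 := by
  by_contra h1
  rcases hr.total k 1 h1 with h3 | h3
  · have h4 := hr.left k _ _ h3
    rw [hk, mul_one] at h4
    exact hr.irrefl _ (hr.trans _ _ _ h3 h4)
  · have h4 := hr.left k _ _ h3
    rw [hk, mul_one] at h4
    exact hr.irrefl _ (hr.trans _ _ _ h3 h4)

variable {Γ P : Type} [Group Γ] [DecidableEq P] [MulAction Γ P] {p : Pce Γ P}

private theorem OCh_core [DecidableEq (P × Set (WW P))] (hp : p.Ok) {n : ℕ}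
    (hfull : ∀ f ∈ p.F, ∀ c ∈ p.Y, (∀ q ∈ c, {q} ∈ f) → c ∈ f)
    (hA : Acyc (Ucx p.Y p.F)) (hM : HomMfd n (Ucx p.Y p.F)) (K : Subgroup (HH p.A p.F))
    (hK : K.FiniteIndex) (hG : Good K) (m : ℕ) (hm : 2 * m ≠ n) :
    p.T (m + 1) + p.T m ≤ p.N m := by
  obtain ⟨r0, hr0⟩ := hG.lo
  have hX : FreeCx K (Ucx p.Y p.F) := hp.freeCx_U hfull K hK (LO.sq hr0)
  obtain ⟨r, hr, hinv, hz⟩ := exists_locDim_zero_good hX hA hM hG
  let iA : MulAction K {σ : Finset (P × Set (WW P)) // σ ∈ Ucx p.Y p.F} := simpAct hX.inv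
  have hF : FreeCell K (simpCx (Ucx p.Y p.F) r) :=
    freeCell_simp hX (fun _ _ => rfl) hr hinv
  refine hp.chamber_exact hfull hr hF m fun c hc => hz c ?_
  rw [hc, Nat.add_sub_cancel]
  exact hm

theorem Pce.Ok.star_fin (hp : p.Ok) : ∀ c ∈ p.Y, {d ∈ p.Y | c ⊆ d}.Finite := by
  intro c hc
  have key : ∀ (P : Type) (inst : DecidableEq P) (_ : MulAction p.A P) (Y : Set (Finset P))
      (_ : FreeCx p.A Y) (c : Finset P), c ∈ Y → {d ∈ Y | c ⊆ d}.Finite := by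
    intro P inst _ Y hY c hc
    classical
    let lo : LinearOrder P := linearOrderOfSTO (WellOrderingRel (α := P))
    have e : inst = lo.toDecidableEq := Subsingleton.elim _ _
    subst e
    exact hY.finStar hc
  exact key P _ _ p.Y hp.cx c hc

/-- The bound for the end pieces with a group in `OrdCls`, in all degrees. -/
theorem Pce.Ok.chamber_o (hp : p.Ok) {n : ℕ} (h : OCell n p.A p.Y p.F) (m : ℕ)
    (hm : 2 * m ≠ n) : p.T (m + 1) + p.T m ≤ p.N m := by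
  obtain ⟨B, _, hfi, hO, hF⟩ := h.grp
  obtain ⟨K, hK, hG⟩ := hp.exists_good hfi hO hF
  have hd := h.dv hp.star_fin hp.mfin
  exact @OCh_core Γ P _ _ _ p _ hp n h.full hd.acyc_Ucx hd.homMfd K hK hG m hm

end SingerHK
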