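import Mathlib
import Pool.Agent.Lib_MP_394d50_hr.WMain
import Pool.Agent.Lib_MP_394d50_ho.OCls

/-!
# MP_394d50_gt, hierarchies with end pieces with groups in `OrdCls`: the main theorem
-/

namespace SingerHK

open SingerRA SingerVS SingerCub SingerRN
open scoped Pointwise

variable {Γ P : Type} [Group Γ] [LinearOrder P] [MulAction Γ P] {X : Set (Finset P)}

/-- No harmonic chains above the middle dimension. -/
theorem nh_of_hierO (hX : FreeCx Γ X) {n : ℕ} (h : HierO n (StratO n) (⊤ : Subgroup Γ) X ∅)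
    (k : ℕ) (hk : n < 2 * k) : NH (simpCx X (fun x y : P => x < y)) Set.univ k := by
  classical
  obtain ⟨p, hp, e1, e2, e3⟩ := exists_pce hX
  have hb := (h.bound (fun A Y F h => h.bound) fun f hf => absurd hf (Set.notMem_empty f)).1 p
    hp e1 e2 e3 k hk
  subst e2
  refine nh_of_betti hX k ?_
  unfold bettiX
  refine finsum_eq_zero_of_forall_eq_zero fun o => ?_
  split_ifs with h1
  · exact hp.locDim_zero_of_bound e3 (fun σ _ => SingerCub.totOn_lt σ) k hb ⟨o.out, h1.1⟩ h1.2
  · rfl

/-- **The Singer conjecture for manifolds which have, for a subgroup of finite index, a hierarchy whose end pieces have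
groups in `OrdCls`, or, in even dimensions, arbitrary groups.** -/
theorem main_ho (hX : FreeCx Γ X) {n : ℕ} (hA : ContractibleSpace (geo X) ∨ Acyc X)
    (hM : LocEuc n (geo X) ∨ HomMfd n X) (K : Subgroup Γ) (hK : K.FiniteIndex)
    (h : HierO n (StratO n) (⊤ : Subgroup K) X ∅) :
    (∀ k, 2 * k ≠ n → bettiX Γ X k = 0) ∧
      (∀ k, 2 * k = n → bettiX Γ X k = (-1 : ℝ) ^ k * chiX Γ X) ∧
      ((∀ k, bettiX Γ X k = 0) ↔ chiX Γ X = 0) ∧
      ∀ k, 2 * k = n → 0 ≤ (-1 : ℤ) ^ k * chiX Γ X := by
  have hD : Dn X := fun σ hσ τ h1 h2 => hX.down σ hσ τ h1 h2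
  have hA' : Acyc X := by
    rcases hA with h | h
    · refine acyc_of_contractible hD hX.ne (fun σ hσ => ?_) h
      have h4 : ((fun p => insert p σ) '' {p | p ∉ σ ∧ insert p σ ∈ X}).Finite := by
        refine (hX.finStar hσ).subset ?_
        rintro _ ⟨p, ⟨_, h2⟩, rfl⟩
        exact ⟨h2, Finset.subset_insert p σ⟩
      refine Set.Finite.of_finite_image h4 ?_
      intro p hp q _ e
      have h3 : p ∈ insert q σ := by
        rw [← show insert p σ = insert q σ from e]
        exact Finset.mem_insert_self p σ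
      exact (Finset.mem_insert.mp h3).resolve_right hp.1
    · exact h
  have hM' : HomMfd n X := by
    rcases hM with h | h
    · exact homMfd_of_locEuc hD hX.ne (fun σ hσ => hX.finStar hσ) h
    · exact h
  exact main_dual hX hA' hM' (nh_of_hierO (hX.of_finiteIndex K hK) h)

end SingerHK
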