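import Mathlib
import Pool.Agent.Lib_MP_394d50_ho.OMain

/-!
# MP_394d50_gt: the class contains the Haken cells and the manifolds with a group in `OrdCls`
-/

namespace SingerHK

open SingerRA SingerVS SingerCub SingerRN SingerBO
open scoped Pointwise

/-- The class `OrdCls` contains the trivial groups. -/
theorem ordCls_triv {G : Type} [Group G] (h : ∀ x : G, x = 1) : OrdCls G := by
  intro C hC
  refine hC.bo G ⟨fun _ _ => False, ⟨fun _ h => h, fun _ _ _ h _ => h, fun x y hxy => ?_,
    fun _ _ _ h => h, fun _ _ _ h => h⟩⟩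
  exact absurd ((h x).trans (h y).symm) hxy

/-- A Haken cell is an end piece with a group in `OrdCls`. -/
theorem CCell.ocell {Γ P : Type} [Group Γ] [DecidableEq P] [MulAction Γ P] {n : ℕ}
    {A : Subgroup Γ} {Y : Set (Finset P)} {F : Set (Set (Finset P))} (h : CCell n Y F)
    (hY : FreeCx A Y) : OCell n A Y F where
  ne := h.ne
  down := h.down
  sub := h.sub
  fne := h.fne
  fdown := h.fdown
  full := h.full
  acyc := fun J hJ _ hm => h.acyc J hJ hm
  dim := h.dim
  sph := h.sph
  ball := h.ball
  grp := by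
    have hYn : Y.Nonempty := by
      have h1 := h.acyc ∅ (Set.empty_subset _) (fun f hf => absurd hf (Set.notMem_empty f))
      obtain ⟨v, hv⟩ := h1.pt
      exact ⟨{v}, hv.1⟩
    obtain ⟨σ, hσ⟩ := hYn
    have hYf : Finite {c // c ∈ Y} := h.fin.to_subtype
    have hA : Finite A := by
      refine Finite.of_injective
        (fun a : A => (⟨a • σ, hY.inv a σ hσ⟩ : {c // c ∈ Y})) ?_
      intro a b hab
      have h1 : a • σ = b • σ := congrArg Subtype.val hab
      have h2 : (b⁻¹ * a) • σ = σ := by rw [mul_smul, h1, inv_smul_smul]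
      have h3 := hY.free (b⁻¹ * a) σ hσ h2
      exact (inv_mul_eq_one.mp h3).symm
    refine ⟨⊥, bot_le, inferInstance, ordCls_triv fun x => Subtype.ext ?_, ?_⟩
    · exact Subgroup.mem_bot.mp x.2
    · intro b hb f _
      rw [Subgroup.mem_bot.mp hb, one_smul]
      exact Or.inl rfl

/-- An acyclic homology manifold with a group which is virtually in `OrdCls` is an end piece without faces. -/
theorem ocell_of_virt {Γ P : Type} [Group Γ] [LinearOrder P] [MulAction Γ P] {n : ℕ}
    {X : Set (Finset P)} (hX : FreeCx Γ X) (hA : Acyc X) (hM : HomMfd n X)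
    (hG : VirtOrdCls Γ) : OCell n (⊤ : Subgroup Γ) X ∅ where
  ne := hX.ne
  down := hX.down
  sub := fun f hf => absurd hf (Set.notMem_empty f)
  fne := fun f hf => absurd hf (Set.notMem_empty f)
  fdown := fun f hf => absurd hf (Set.notMem_empty f)
  full := fun f hf => absurd hf (Set.notMem_empty f)
  acyc := fun J hJ _ _ => by
    rw [Set.subset_empty_iff.mp hJ, strat_empty]
    exact hA
  dim := fun c hc => by
    have h1 : {f : Set (Finset P) | f ∈ (∅ : Set (Set (Finset P))) ∧ c ∈ f} = ∅ := by
      ext f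
      simp
    rw [h1, Set.ncard_empty, add_zero]
    exact hM.dim c hc
  sph := fun c hc => by
    have h1 : {f : Set (Finset P) | f ∈ (∅ : Set (Set (Finset P))) ∧ c ∈ f} = ∅ := by
      ext f
      simp
    rw [h1, Set.ncard_empty, add_zero, strat_empty]
    convert hM.link c hc
  ball := fun c hc J hJ => by
    exfalso
    obtain ⟨f, hf, _⟩ := Set.exists_of_ssubset hJ
    exact absurd hf.1 (Set.notMem_empty f)
  grp := by
    obtain ⟨K, hK, hO⟩ := hG
    refine ⟨K, le_top, ⟨?_⟩, hO, fun b _ f hf => absurd hf (Set.notMem_empty f)⟩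
    rw [← Subgroup.relIndex, Subgroup.relIndex_top_right]
    exact hK.index_ne_zero

end SingerHK
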